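import Mathlib
import Pool.Agent.H90.TDP.Ifp

/-!
The statements of the blocks FC_p and GA_p.
-/

set_option autoImplicit false

namespace Pool.Agent.H33.TDP

open Finset Classical
open Pool.Agent.H71.DN Pool.Agent.H71.DX Pool.Agent.H71.DR Pool.Agent.H71.HL Pool.Agent.H71.DC
open Pool.Agent.H71.TD Pool.Agent.H90.TDP

/-- The colouring of the defect edges exists. -/
def FcStP (c : ℝ) (g p : ℕ) : Prop :=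
  ∃ f1 ξ0 : ℝ, 0 < f1 ∧ 0 < ξ0 ∧ ∀ δ : ℝ, 0 < δ → ∃ (f0 : ℝ) (n0 : ℕ), 0 < f0 ∧
    ∀ (V : Type) [Fintype V] (G : SimpleGraph V) (Δ k KE KB : ℕ) (x ξ ζ f η : ℝ)
      (ty : ℕ → Prop) (nd qt : V → ℕ) (sf : ℕ → Finset V), n0 ≤ Fintype.card V →
      c * Fintype.card V ≤ Δ → 0 ≤ ξ → ξ ≤ ξ0 → 0 ≤ f → f ≤ f0 →
      Str G Δ c x ξ ζ f k ty nd sf → Spl G k ty nd qt η KE KB f1 →
      ∃ (φ : ℕ → V → V) (c0 : V → ℕ),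
        FcP G Δ p k ty nd qt ((Δ + 2 * p - 2) / (12 * g)) δ φ c0

/-- The colours and holes of the vertices exist. -/
def GaStP (c x : ℝ) (p : ℕ) : Prop :=
  ∃ g0 : ℕ, ∀ g : ℕ, g0 ≤ g → ∀ κ : ℝ, 0 < κ → ∃ ξ0 : ℝ, 0 < ξ0 ∧
    ∀ ξ ζ : ℝ, 0 < ξ → ξ ≤ ξ0 → 0 < ζ → ∃ (δ f0 : ℝ) (n0 : ℕ), 0 < δ ∧ 0 < f0 ∧
      ∀ (V : Type) [Fintype V] (G : SimpleGraph V) (Δ k KE KB : ℕ) (f η f1 : ℝ)
        (ty : ℕ → Prop) (nd qt : V → ℕ) (sf : ℕ → Finset V) (φ : ℕ → V → V) (c0 : V → ℕ),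
        n0 ≤ Fintype.card V → c * Fintype.card V ≤ Δ → 0 ≤ f → f ≤ f0 → 1 ≤ KE → 1 ≤ KB →
        η ≤ 1 / 100 → Str G Δ c x ξ ζ f k ty nd sf → Spl G k ty nd qt η KE KB f1 →
        FcP G Δ p k ty nd qt ((Δ + 2 * p - 2) / (12 * g)) δ φ c0 →
        ∃ (cc : V → ℕ) (S : V → Finset ℕ),
          GaP G Δ p k ty nd qt ((Δ + 2 * p - 2) / (12 * g)) κ φ cc S

end Pool.Agent.H33.TDP
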