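import Mathlib
import Pool.Agent.H33.TDP.St
import Pool.Agent.H90.TDP.Rel
import Pool.Agent.H2.FP.FcP

/-!
The block FC_p: from `fcp` and `rel`.
-/

set_option autoImplicit false

namespace Pool.Agent.H33.TDP

open Finset Classical
open Pool.Agent.H71.DN Pool.Agent.H71.DX Pool.Agent.H71.DR Pool.Agent.H71.HL Pool.Agent.H71.DC
open Pool.Agent.H71.TD Pool.Agent.H90.TDP

theorem fcSt (c : ℝ) (g p : ℕ) (hc : 0 < c) (hc1 : c ≤ 1) (hg : 3 ≤ g) (hp : 1 ≤ p) :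
    FcStP c g p := by
  obtain ⟨f1, ξ0, hf1, hξ0, H⟩ := fcp c g p hc hc1 hg hp
  refine ⟨f1, ξ0, hf1, hξ0, fun δ hδ => ?_⟩
  obtain ⟨f0, n0, hf0, H2⟩ := H δ hδ
  have hp1 : (1 : ℝ) ≤ p := by exact_mod_cast hp
  obtain ⟨N, hN⟩ : ∃ N : ℕ, N = ⌈40 * p / c⌉₊ := ⟨_, rfl⟩
  refine ⟨min f0 (c / (16 * p)), n0 + N, lt_min hf0 (by positivity), ?_⟩
  intro V _ G Δ k KE KB x ξ ζ f η ty nd qt sf hn hcn hξ hξ1 hf hf2 hS hP
  obtain ⟨φ, Hs, hF⟩ := H2 V G Δ k KE KB x ξ ζ f η ty nd qt sf (by omega) hcn hξ hξ1 hf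
    (hf2.trans (min_le_left _ _)) hS hP
  obtain ⟨n, hnn⟩ : ∃ n : ℝ, n = (Fintype.card V : ℝ) := ⟨_, rfl⟩
  have hn1 : 40 * (p : ℝ) ≤ c * n := by
    have h1 : 40 * (p : ℝ) / c ≤ N := by rw [hN]; exact Nat.le_ceil _
    have h2 : (N : ℝ) ≤ n := by
      rw [hnn]
      have : N ≤ Fintype.card V := by omega
      exact_mod_cast this
    have h3 := h1.trans h2
    rw [div_le_iff₀ hc] at h3
    linarith
  have hlo : ((pt nd (2 * k)).card : ℝ) ≤ f * n := by rw [hnn]; exact hS.lo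
  have hn0 : 0 ≤ n := by rw [hnn]; exact Nat.cast_nonneg _
  have hlo2 : 16 * p * ((pt nd (2 * k)).card : ℝ) ≤ c * n := by
    have h1 : f * n ≤ c / (16 * p) * n :=
      mul_le_mul_of_nonneg_right (hf2.trans (min_le_right _ _)) hn0
    have h2 : 16 * (p : ℝ) * (c / (16 * p) * n) = c * n := by
      field_simp
    have h3 : 16 * (p : ℝ) * ((pt nd (2 * k)).card : ℝ) ≤ 16 * p * (c / (16 * p) * n) :=
      mul_le_mul_of_nonneg_left (hlo.trans h1) (by positivity)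
    linarith
  have hlo3 : 16 * p * (pt nd (2 * k)).card ≤ Δ := by
    have : (16 : ℝ) * p * ((pt nd (2 * k)).card : ℝ) ≤ Δ := by
      rw [← hnn] at hcn
      linarith
    exact_mod_cast this
  have h40 : 40 * p ≤ Δ := by
    have : (40 : ℝ) * p ≤ Δ := by
      rw [← hnn] at hcn
      linarith
    exact_mod_cast this
  obtain ⟨φ', c0, hF'⟩ := rel G Δ p k ty nd qt ((Δ + 2 * p - 2) / (12 * g)) δ φ Hs hp (by
    have h1 : (Δ + 2 * p - 2) / (12 * g) ≤ (Δ + 2 * p - 2) / 36 :=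
      Nat.div_le_div_left (by omega) (by norm_num)
    have h2 : (4 * p - 2) * (pt nd (2 * k)).card ≤ 4 * p * (pt nd (2 * k)).card :=
      Nat.mul_le_mul_right _ (by omega)
    have h3 : 16 * p * (pt nd (2 * k)).card = 4 * (4 * p * (pt nd (2 * k)).card) := by ring
    omega) hF
  exact ⟨φ', c0, hF'⟩

end Pool.Agent.H33.TDP
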