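import Mathlib
import Pool.Agent.H71.TD.CtsE
import Pool.Agent.H71.TD.CtsB
import Pool.Agent.H90.TDP.Ifp

/-!
The decomposition of the parts into exactly perfect matchings (`ctsE`, `ctsB`) with `Δ + 2 p` labels, for the positions
`T1 = [2 p, 2 p + t)`, `T2 = [4 p + t, 4 p + 2 t)` of the special labels.
-/

set_option autoImplicit false

namespace Pool.Agent.H33.TDP

open Finset Classical
open Pool.Agent.H71.DN Pool.Agent.H71.DX Pool.Agent.H71.DR Pool.Agent.H71.HL Pool.Agent.H71.DC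
open Pool.Agent.H71.TD Pool.Agent.H90.TDP

/-- From the order `T1, T2, rest` to the final order of the labels. -/
def sg (p t ℓ : ℕ) : ℕ :=
  if ℓ < t then ℓ + 2 * p else if ℓ < 2 * t then ℓ + 4 * p else
    if ℓ < 2 * t + 2 * p then ℓ - 2 * t else if ℓ < 2 * t + 4 * p then ℓ - t else ℓ

/-- The inverse of `sg`. -/
def sgi (p t ℓ : ℕ) : ℕ :=
  if ℓ < 2 * p then ℓ + 2 * t else if ℓ < 2 * p + t then ℓ - 2 * p else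
    if ℓ < 4 * p + t then ℓ + t else if ℓ < 4 * p + 2 * t then ℓ - 4 * p else ℓ

theorem sg_sgi (p t ℓ : ℕ) : sg p t (sgi p t ℓ) = ℓ := by
  unfold sg sgi
  split_ifs <;> omega

theorem sgi_sg (p t ℓ : ℕ) : sgi p t (sg p t ℓ) = ℓ := by
  unfold sg sgi
  split_ifs <;> omega

theorem sg_lt (p t L ℓ : ℕ) (hL : 4 * p + 2 * t ≤ L) (h : ℓ < L) : sg p t ℓ < L := by
  unfold sg
  split_ifs <;> omega

theorem sgi_lt (p t L ℓ : ℕ) (hL : 4 * p + 2 * t ≤ L) (h : ℓ < L) : sgi p t ℓ < L := by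
  unfold sgi
  split_ifs <;> omega

theorem sg_T1 (p t ℓ : ℕ) (h : ℓ < t) : T1 p t (sg p t ℓ) := by
  unfold sg T1
  rw [if_pos h]
  omega

theorem sg_T2 (p t ℓ : ℕ) (h : t ≤ ℓ) (h2 : ℓ < 2 * t) : T2 p t (sg p t ℓ) := by
  unfold sg T2
  rw [if_neg (by omega), if_pos h2]
  omega

/-- `mul` does not depend on the order of the labels. -/
theorem mul_sg {V : Type} (p t L : ℕ) (hL : 4 * p + 2 * t ≤ L) (U : ℕ → Finset V) (v : V) :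
    mul L (fun ℓ => U (sg p t ℓ)) v = mul L U v := by
  unfold mul
  refine card_bij (fun ℓ _ => sg p t ℓ) ?_ ?_ ?_
  · intro ℓ hℓ
    rw [mem_filter, mem_range] at hℓ ⊢
    exact ⟨sg_lt p t L ℓ hL hℓ.1, hℓ.2⟩
  · intro a _ b _ hab
    rw [← sgi_sg p t a, hab, sgi_sg]
  · intro ℓ hℓ
    rw [mem_filter, mem_range] at hℓ
    refine ⟨sgi p t ℓ, ?_, sg_sgi p t ℓ⟩
    rw [mem_filter, mem_range]
    refine ⟨sgi_lt p t L ℓ hL hℓ.1, ?_⟩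
    show v ∈ U (sg p t (sgi p t ℓ))
    rw [sg_sgi]
    exact hℓ.2

/-- The matchings in the final order of the labels. -/
theorem pm_sg {V : Type} (G : SimpleGraph V) (p t L : ℕ) (hL : 4 * p + 2 * t ≤ L)
    (U : ℕ → Finset V) (mm : ℕ → V → V) (h : PM G L (fun ℓ => U (sg p t ℓ)) mm) :
    PM G L U (fun ℓ => mm (sgi p t ℓ)) := by
  refine ⟨fun ℓ hℓ => h.inv _ (sgi_lt p t L ℓ hL hℓ), fun ℓ hℓ => h.adj _ (sgi_lt p t L ℓ hL hℓ),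
    ?_, ?_⟩
  · intro ℓ hℓ ℓ' hℓ' hne
    refine h.dis _ (sgi_lt p t L ℓ hL hℓ) _ (sgi_lt p t L ℓ' hL hℓ') ?_
    intro h2
    exact hne (by rw [← sg_sgi p t ℓ, h2, sg_sgi])
  · intro ℓ hℓ v hv
    refine h.fix _ (sgi_lt p t L ℓ hL hℓ) v ?_
    show v ∈ U (sg p t (sgi p t ℓ))
    rw [sg_sgi]
    exact hv

private theorem big_n (a : ℝ) (ρ : ℝ) (hρ : 0 < ρ) : ∃ N : ℕ, ∀ n : ℕ, N ≤ n → a ≤ ρ * (n : ℝ) := by
  refine ⟨⌈a / ρ⌉₊, fun n hn => ?_⟩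
  have h1 : a / ρ ≤ n := (Nat.le_ceil _).trans (by exact_mod_cast hn)
  rw [div_le_iff₀ hρ] at h1
  linarith

theorem ctsEp (c x : ℝ) (g p : ℕ) (hc : 0 < c) (hc1 : c ≤ 1) (hx : 0 < x) (hx1 : x ≤ 1)
    (hg : 2 ≤ g) (hp : 1 ≤ p) :
    ∃ (κ ρ η : ℝ) (K0 n0 : ℕ), 0 < κ ∧ 0 < ρ ∧ 0 < η ∧ 1 ≤ K0 ∧
      ∀ (V : Type) [Fintype V] (G : SimpleGraph V) (Δ t : ℕ) (C XA XB YA YB : Finset V),
        t = (Δ + 2 * p - 2) / (12 * g) →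
        n0 ≤ C.card → c * C.card ≤ Δ → (Δ : ℝ) + 2 * p ≤ 2 * C.card →
        (∀ v ∈ C, dgi G C v ≤ Δ ∧ (Δ : ℝ) ≤ dgi G C v + ρ * C.card) →
        XPc G C (c / 128) x x →
        XA ⊆ C → XB ⊆ C → YA ⊆ C → YB ⊆ C →
        Disjoint XA XB → Disjoint XA YA → Disjoint XA YB → Disjoint XB YA → Disjoint XB YB →
        Disjoint YA YB → (∀ v ∈ C, v ∈ XA ∨ v ∈ XB ∨ v ∈ YA ∨ v ∈ YB) →
        XA.card = XB.card → YA.card = YB.card →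
        (∀ Z, (Z = XA ∨ Z = XB ∨ Z = YA ∨ Z = YB) → SmPQ G C C Z (1 / 4) η K0) →
        ∀ U : ℕ → Finset V, (∀ ℓ < Δ + 2 * p, ((U ℓ ∩ C).card : ℝ) ≤ κ * C.card) →
          (∀ v ∈ C, dgi G C v + mul (Δ + 2 * p) U v = Δ + 2 * p) →
          (∀ ℓ, T1 p t ℓ → Disjoint (U ℓ) (XA ∪ XB)) →
          (∀ ℓ, T2 p t ℓ → Disjoint (U ℓ) (YA ∪ YB)) →
          (∀ ℓ < Δ + 2 * p, Even (C \ U ℓ).card) →
          ∃ mm : ℕ → V → V, PM G (Δ + 2 * p) (fun ℓ => U ℓ ∪ (univ \ C)) mm ∧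
            ∀ ℓ < Δ + 2 * p, ∀ v ∈ C, v ∉ U ℓ → mm ℓ v ≠ v := by
  obtain ⟨κ, ρ, η, K0, n0, hκ, hρ, hη, hK0, H⟩ := ctsE c x g hc hc1 hx hx1 hg
  obtain ⟨N1, hN1⟩ := big_n (2 * p) (ρ / 2) (by positivity)
  obtain ⟨N2, hN2⟩ := big_n (8 * p) c hc
  refine ⟨κ, ρ / 2, η, K0, n0 + N1 + N2, hκ, by positivity, hη, hK0, ?_⟩
  intro V _ G Δ t C XA XB YA YB ht hn hcn hΔn hdeg hX s1 s2 s3 s4 d1 d2 d3 d4 d5 d6 hcov cX cY hS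
    U hUs hUm hU1 hU2 hUe
  obtain ⟨Δ', hΔ'⟩ : ∃ Δ' : ℕ, Δ' = Δ + 2 * p - 2 := ⟨_, rfl⟩
  have hL : Δ' + 2 = Δ + 2 * p := by omega
  have hcast : (Δ' : ℝ) + 2 = Δ + 2 * p := by exact_mod_cast hL
  have hn1 := hN1 C.card (by omega)
  have hn2 := hN2 C.card (by omega)
  have hp1 : (1 : ℝ) ≤ p := by exact_mod_cast hp
  have h8 : 8 * p ≤ Δ := by
    have : (8 : ℝ) * p ≤ Δ := hn2.trans hcn
    exact_mod_cast this
  have ht' : t = Δ' / (12 * g) := by rw [hΔ']; exact ht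
  have htL : 4 * p + 2 * t ≤ Δ + 2 * p := by
    have h1 : t ≤ Δ' / 24 := by
      rw [ht']
      exact Nat.div_le_div_left (by omega) (by norm_num)
    omega
  have hle : ∀ ℓ, ℓ < Δ' + 2 → ℓ < Δ + 2 * p := fun ℓ h => by omega
  obtain ⟨mm, hmm, hmm2⟩ := H V G Δ' C XA XB YA YB (by omega) (by linarith) (by linarith)
    (fun v hv => ⟨by have := (hdeg v hv).1; omega, by have := (hdeg v hv).2; linarith⟩)
    hX s1 s2 s3 s4 d1 d2 d3 d4 d5 d6 hcov cX cY hS (fun ℓ => U (sg p t ℓ))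
    (fun ℓ hℓ => hUs _ (sg_lt p t _ ℓ htL (hle ℓ hℓ)))
    (fun v hv => by rw [hL, mul_sg p t _ htL]; exact hUm v hv)
    (fun ℓ hℓ => hU1 _ (sg_T1 p t ℓ (by omega)))
    (fun ℓ hℓ hℓ2 => hU2 _ (sg_T2 p t ℓ (by omega) (by omega)))
    (fun ℓ hℓ => hUe _ (sg_lt p t _ ℓ htL (hle ℓ hℓ)))
  rw [hL] at hmm hmm2
  refine ⟨fun ℓ => mm (sgi p t ℓ), pm_sg G p t _ htL (fun ℓ => U ℓ ∪ (univ \ C)) mm hmm, ?_⟩
  intro ℓ hℓ v hv hvU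
  refine hmm2 _ (sgi_lt p t _ ℓ htL hℓ) v hv ?_
  show v ∉ U (sg p t (sgi p t ℓ))
  rw [sg_sgi]
  exact hvU

theorem ctsBp (c x : ℝ) (g p : ℕ) (hc : 0 < c) (hc1 : c ≤ 1) (hx : 0 < x) (hx1 : x ≤ 1)
    (hg : 2 ≤ g) (hp : 1 ≤ p) :
    ∃ (κ ρ η : ℝ) (K0 n0 : ℕ), 0 < κ ∧ 0 < ρ ∧ 0 < η ∧ 1 ≤ K0 ∧
      ∀ (V : Type) [Fintype V] (G : SimpleGraph V) (Δ t : ℕ) (A B XA XB YA YB : Finset V),
        t = (Δ + 2 * p - 2) / (12 * g) →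
        n0 ≤ A.card → A.card = B.card → Disjoint A B → 2 * c * A.card ≤ Δ →
        (Δ : ℝ) + 2 * p ≤ 2 * A.card →
        (∀ v ∈ A, dgi G B v ≤ Δ ∧ (Δ : ℝ) ≤ dgi G B v + ρ * A.card) →
        (∀ v ∈ B, dgi G A v ≤ Δ ∧ (Δ : ℝ) ≤ dgi G A v + ρ * A.card) →
        XPQ G A B (c / 128) x x → XPQ G B A (c / 128) x x →
        Disjoint XA YA → Disjoint XB YB → XA ∪ YA = A → XB ∪ YB = B →
        XA.card = XB.card → YA.card = YB.card →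
        SmPQ G A B XA (1 / 2) η K0 → SmPQ G A B YA (1 / 2) η K0 →
        SmPQ G B A XB (1 / 2) η K0 → SmPQ G B A YB (1 / 2) η K0 →
        ∀ U : ℕ → Finset V, (∀ ℓ < Δ + 2 * p, ((U ℓ ∩ (A ∪ B)).card : ℝ) ≤ κ * A.card) →
          (∀ v ∈ A, dgi G B v + mul (Δ + 2 * p) U v = Δ + 2 * p) →
          (∀ v ∈ B, dgi G A v + mul (Δ + 2 * p) U v = Δ + 2 * p) →
          (∀ ℓ, T1 p t ℓ → Disjoint (U ℓ) (XA ∪ XB)) →
          (∀ ℓ, T2 p t ℓ → Disjoint (U ℓ) (YA ∪ YB)) →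
          (∀ ℓ < Δ + 2 * p, (A \ U ℓ).card = (B \ U ℓ).card) →
          ∃ mm : ℕ → V → V,
            PM (bt G A B) (Δ + 2 * p) (fun ℓ => U ℓ ∪ (univ \ (A ∪ B))) mm ∧
            ∀ ℓ < Δ + 2 * p, ∀ v ∈ A ∪ B, v ∉ U ℓ → mm ℓ v ≠ v := by
  obtain ⟨κ, ρ, η, K0, n0, hκ, hρ, hη, hK0, H⟩ := ctsB c x g hc hc1 hx hx1 hg
  obtain ⟨N1, hN1⟩ := big_n (2 * p) (ρ / 2) (by positivity)
  obtain ⟨N2, hN2⟩ := big_n (8 * p) c hc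
  refine ⟨κ, ρ / 2, η, K0, n0 + N1 + N2, hκ, by positivity, hη, hK0, ?_⟩
  intro V _ G Δ t A B XA XB YA YB ht hn hAB hdis hcn hΔn hdA hdB hX1 hX2 d1 d2 hA hB cX cY S1 S2
    S3 S4 U hUs hUA hUB hU1 hU2 hUe
  obtain ⟨Δ', hΔ'⟩ : ∃ Δ' : ℕ, Δ' = Δ + 2 * p - 2 := ⟨_, rfl⟩
  have hL : Δ' + 2 = Δ + 2 * p := by omega
  have hcast : (Δ' : ℝ) + 2 = Δ + 2 * p := by exact_mod_cast hL
  have hn1 := hN1 A.card (by omega)
  have hn2 := hN2 A.card (by omega)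
  have hp1 : (1 : ℝ) ≤ p := by exact_mod_cast hp
  have hA0 : (0 : ℝ) ≤ c * A.card := by positivity
  have h8 : 8 * p ≤ Δ := by
    have : (8 : ℝ) * p ≤ Δ := by linarith
    exact_mod_cast this
  have ht' : t = Δ' / (12 * g) := by rw [hΔ']; exact ht
  have htL : 4 * p + 2 * t ≤ Δ + 2 * p := by
    have h1 : t ≤ Δ' / 24 := by
      rw [ht']
      exact Nat.div_le_div_left (by omega) (by norm_num)
    omega
  have hle : ∀ ℓ, ℓ < Δ' + 2 → ℓ < Δ + 2 * p := fun ℓ h => by omega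
  obtain ⟨mm, hmm, hmm2⟩ := H V G Δ' A B XA XB YA YB (by omega) hAB hdis (by linarith)
    (by linarith)
    (fun v hv => ⟨by have := (hdA v hv).1; omega, by have := (hdA v hv).2; linarith⟩)
    (fun v hv => ⟨by have := (hdB v hv).1; omega, by have := (hdB v hv).2; linarith⟩)
    hX1 hX2 d1 d2 hA hB cX cY S1 S2 S3 S4 (fun ℓ => U (sg p t ℓ))
    (fun ℓ hℓ => hUs _ (sg_lt p t _ ℓ htL (hle ℓ hℓ)))
    (fun v hv => by rw [hL, mul_sg p t _ htL]; exact hUA v hv)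
    (fun v hv => by rw [hL, mul_sg p t _ htL]; exact hUB v hv)
    (fun ℓ hℓ => hU1 _ (sg_T1 p t ℓ (by omega)))
    (fun ℓ hℓ hℓ2 => hU2 _ (sg_T2 p t ℓ (by omega) (by omega)))
    (fun ℓ hℓ => hUe _ (sg_lt p t _ ℓ htL (hle ℓ hℓ)))
  rw [hL] at hmm hmm2
  refine ⟨fun ℓ => mm (sgi p t ℓ),
    pm_sg (bt G A B) p t _ htL (fun ℓ => U ℓ ∪ (univ \ (A ∪ B))) mm hmm, ?_⟩
  intro ℓ hℓ v hv hvU
  refine hmm2 _ (sgi_lt p t _ ℓ htL hℓ) v hv ?_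
  show v ∉ U (sg p t (sgi p t ℓ))
  rw [sg_sgi]
  exact hvU

end Pool.Agent.H33.TDP
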