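import Mathlib
import Pool.Agent.H33.TDP.MnXp
import Pool.Agent.H71.TD.Stt
import Pool.Agent.H71.TD.Regl

/-!
MNTP: every large graph with maximum degree at least `c n` has a `(p, 1)`-total labelling with `Δ + 2 p` labels, from the
statements of the blocks FC_p and GA_p (compare `TD/MnT.lean`).
-/

set_option autoImplicit false

namespace Pool.Agent.H33.TDP

open Finset Classical
open Pool.Agent.H71.DN Pool.Agent.H71.DX Pool.Agent.H71.DR Pool.Agent.H71.HL Pool.Agent.H71.DC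
open Pool.Agent.H71.TD Pool.Agent.H90.TDP

/-- The theorem for regular graphs. -/
theorem mnRp (c : ℝ) (p : ℕ) (hp : 1 ≤ p) (hc : 0 < c) (hc1 : c ≤ 1)
    (hfc0 : ∀ g, 3 ≤ g → FcStP c g p) (hga0 : ∀ x : ℝ, 0 < x → x ≤ 1 → GaStP c x p) :
    ∃ n0 : ℕ, ∀ (V : Type) [Fintype V] (G : SimpleGraph V) (Δ : ℕ), n0 ≤ Fintype.card V →
      c * Fintype.card V ≤ Δ → (∀ v, dg G v = Δ) → Lab G p (Δ + 2 * p) := by
  have H : ∀ x : ℝ, ∃ ξ : ℝ, 0 < ξ ∧ (0 < x → ξ ≤ c * x / 1000) ∧ ∃ (f0 : ℝ) (n0 : ℕ), 0 < f0 ∧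
      (0 < x → x ≤ 1 → ∀ (V : Type) [Fintype V] (G : SimpleGraph V) (Δ k : ℕ) (f : ℝ)
        (ty : ℕ → Prop) (nd : V → ℕ) (sf : ℕ → Finset V), n0 ≤ Fintype.card V →
        c * Fintype.card V ≤ Δ → 0 ≤ f → f ≤ f0 → Str G Δ c x ξ (ξ / 8) f k ty nd sf →
        Lab G p (Δ + 2 * p)) := by
    intro x
    by_cases h : 0 < x
    · by_cases h1 : x ≤ 1
      · obtain ⟨ξ0, hξ0, hm⟩ := mnXp c x p hp hc hc1 h h1 hfc0 (hga0 x h h1)
        have hpos : 0 < min ξ0 (c * x / 1000) := lt_min hξ0 (by positivity)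
        obtain ⟨f0, n0, hf0, hm2⟩ := hm (min ξ0 (c * x / 1000)) hpos (min_le_left _ _)
        exact ⟨min ξ0 (c * x / 1000), hpos, fun _ => min_le_right _ _, f0, n0, hf0,
          fun _ _ => hm2⟩
      · exact ⟨c * x / 1000, by positivity, fun _ => le_refl _, 1, 0, one_pos,
          fun _ h2 => absurd h2 h1⟩
    · exact ⟨1, one_pos, fun h2 => absurd h2 h, 1, 0, one_pos, fun h2 => absurd h2 h⟩
  choose ξf hξ hξ2 ff nf hf hm using H
  obtain ⟨S, n0, hS, hstt⟩ := stt c hc hc1 ξf ff (fun x hx => ⟨hξ x, hξ2 x hx⟩) (fun x _ => hf x)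
  refine ⟨n0 + S.sup nf, ?_⟩
  intro V _ G Δ hn hcΔ hreg
  obtain ⟨x, k, ty, nd, sf, hxS, hstr⟩ := hstt V G Δ (by omega) hcΔ hreg
  obtain ⟨hx, hx1⟩ := hS x hxS
  have h1 : nf x ≤ S.sup nf := Finset.le_sup hxS
  exact hm x hx hx1 V G Δ k (ff x) ty nd sf (by omega) hcΔ (hf x).le (le_refl _) hstr

/-- Labellings restrict to subgraphs. -/
theorem labE {V V' : Type} (G : SimpleGraph V) (G' : SimpleGraph V') (e : V → V')
    (he : Function.Injective e) (h : ∀ a b, G.Adj a b → G'.Adj (e a) (e b)) (p N : ℕ)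
    (hT : Lab G' p N) : Lab G p N := by
  obtain ⟨fV, fE, h1, h2, h3, h4, h5⟩ := hT
  refine ⟨fun v => fV (e v), fun s => fE (s.map e), fun v => h1 _, ?_, ?_, ?_, ?_⟩
  · intro a b hab
    simp only [Sym2.map_mk]
    exact h2 _ _ (h a b hab)
  · intro a b hab
    exact h3 _ _ (h a b hab)
  · intro a b hab
    simp only [Sym2.map_mk]
    exact h4 _ _ (h a b hab)
  · intro a b b' hab hab' hne
    simp only [Sym2.map_mk]
    exact h5 _ _ _ (h a b hab) (h a b' hab') (fun h6 => hne (he h6))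

/-- The main theorem. -/
theorem mnTp (c : ℝ) (p : ℕ) (hp : 1 ≤ p) (hc : 0 < c) (hc1 : c ≤ 1)
    (hfc0 : ∀ g, 3 ≤ g → FcStP (c / 40) g p)
    (hga0 : ∀ x : ℝ, 0 < x → x ≤ 1 → GaStP (c / 40) x p) :
    ∃ n0 : ℕ, ∀ (V : Type) [Fintype V] (G : SimpleGraph V) (Δ : ℕ), n0 ≤ Fintype.card V →
      (∀ v, dg G v ≤ Δ) → c * Fintype.card V ≤ Δ → Δ ≤ Fintype.card V →
      Lab G p (Δ + 2 * p) := by
  obtain ⟨n1, h1⟩ := mnRp (c / 40) p hp (by positivity) (by linarith) hfc0 hga0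
  obtain ⟨N, hN⟩ : ∃ N : ℕ, N = ⌈2 / c⌉₊ := ⟨_, rfl⟩
  refine ⟨n1 + N + 1, ?_⟩
  intro V _ G Δ hn hΔ hcΔ hΔn
  have hn2 : (2 : ℝ) ≤ Δ := by
    have h2 : 2 / c ≤ N := by
      rw [hN]
      exact Nat.le_ceil _
    have h3 : (N : ℝ) ≤ Fintype.card V := by
      have : N ≤ Fintype.card V := by omega
      exact_mod_cast this
    have h4 : c * (2 / c) ≤ c * Fintype.card V := mul_le_mul_of_nonneg_left (h2.trans h3) hc.le
    have h5 : c * (2 / c) = 2 := by field_simp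
    linarith
  have hn3 : 2 ≤ Δ := by exact_mod_cast hn2
  obtain ⟨V', _, G', e, he, hadj, hreg, hc1', hc2'⟩ := regl G Δ hn3 hΔ hΔn
  refine labE G G' e he hadj p (Δ + 2 * p) (h1 V' G' Δ (by omega) ?_ hreg)
  have h6 : Fintype.card V' ≤ 40 * Fintype.card V := by omega
  have h7 : (Fintype.card V' : ℝ) ≤ 40 * Fintype.card V := by exact_mod_cast h6
  calc c / 40 * (Fintype.card V' : ℝ) ≤ c / 40 * (40 * Fintype.card V) :=
        mul_le_mul_of_nonneg_left h7 (by positivity)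
    _ = c * Fintype.card V := by ring
    _ ≤ Δ := hcΔ

end Pool.Agent.H33.TDP
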