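import Mathlib
import Pool.Agent.H33.TDP.MnTp
import Pool.Agent.H33.TDP.FcSt
import Pool.Agent.H46.GP.GapSt
import Pool.Agent.H71.TD.MnT

/-!
The Havet-Yu bound `Δ + 2 p - 1` for all large dense graphs, for every fixed `p ≥ 1`.
-/

set_option autoImplicit false

namespace Pool.Agent.H33.TDP

open Finset Classical
open Pool.Agent.H71.DN Pool.Agent.H71.DX Pool.Agent.H71.DR Pool.Agent.H71.HL Pool.Agent.H71.DC
open Pool.Agent.H71.TD Pool.Agent.H90.TDP

theorem lab_all (c : ℝ) (p : ℕ) (hp : 1 ≤ p) (hc : 0 < c) (hc1 : c ≤ 1) :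
    ∃ n0 : ℕ, ∀ (V : Type) [Fintype V] (G : SimpleGraph V) (Δ : ℕ), n0 ≤ Fintype.card V →
      (∀ v, dg G v ≤ Δ) → c * Fintype.card V ≤ Δ → Δ ≤ Fintype.card V →
      Lab G p (Δ + 2 * p) := by
  rcases Nat.lt_or_ge 1 p with h2 | h2
  · exact mnTp c p hp hc hc1 (fun g hg => fcSt (c / 40) g p (by positivity) (by linarith) hg hp)
      (fun x hx hx1 => Pool.Agent.H46.GP.gaStP (c / 40) x p (by positivity) (by linarith) hx hx1 h2)
  · have hp1 : p = 1 := by omega
    subst hp1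
    obtain ⟨n0, h⟩ := mnT c hc hc1
    refine ⟨n0, fun V _ G Δ hn hΔ hcΔ hΔn => ?_⟩
    obtain ⟨fV, fE, h1, h3, h4, h5, h6⟩ := h V G Δ hn hΔ hcΔ hΔn
    refine ⟨fV, fE, h1, h3, h4, fun a b hab hN => h5 a b hab ?_, h6⟩
    unfold Nr at hN
    omega

/-- The Havet-Yu bound in the usual form. -/
def HYu {V : Type} [Fintype V] (G : SimpleGraph V) [DecidableRel G.Adj] (p : ℕ) : Prop :=
  ∃ (fV : V → ℕ) (fE : Sym2 V → ℕ),
    (∀ v : V, fV v ≤ G.maxDegree + 2 * p - 1) ∧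
    (∀ e ∈ G.edgeSet, fE e ≤ G.maxDegree + 2 * p - 1) ∧
    (∀ u v : V, G.Adj u v → fV u ≠ fV v) ∧
    (∀ u v : V, G.Adj u v → (p : ℤ) ≤ |(fV u : ℤ) - (fE s(u, v) : ℤ)|) ∧
    (∀ u v w : V, G.Adj u v → G.Adj u w → v ≠ w → fE s(u, v) ≠ fE s(u, w))

theorem hyu_of_lab {V : Type} [Fintype V] (G : SimpleGraph V) [DecidableRel G.Adj] (p : ℕ)
    (hp : 1 ≤ p) (h : Lab G p (G.maxDegree + 2 * p)) : HYu G p := by
  obtain ⟨fV, fE, h1, h2, h3, h4, h5⟩ := h
  refine ⟨fV, fE, fun v => by have := h1 v; omega, ?_, h3, ?_, h5⟩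
  · intro e
    induction e using Sym2.ind with
    | _ a b =>
      intro he
      have := h2 a b ((SimpleGraph.mem_edgeSet G).1 he)
      omega
  · intro u v huv
    have h6 := h4 u v huv
    unfold Nr at h6
    rw [le_abs]
    omega

theorem dg_le_max {V : Type} [Fintype V] (G : SimpleGraph V) [DecidableRel G.Adj] (v : V) :
    dg G v ≤ G.maxDegree := by
  have h1 : dg G v = G.degree v := by
    unfold dg
    rw [← SimpleGraph.card_neighborFinset_eq_degree]
    congr 1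
    ext u
    simp
  rw [h1]
  exact G.degree_le_maxDegree v

/-- For every `c > 0` and `p ≥ 1` there is `n0` such that all graphs with `n ≥ n0` vertices and maximum degree at least
`c n` satisfy the Havet-Yu bound for `p`. -/
theorem hyu_fixed (c : ℝ) (hc : 0 < c) (p : ℕ) (hp : 1 ≤ p) :
    ∃ n0 : ℕ, ∀ (V : Type) [Fintype V] (G : SimpleGraph V) [DecidableRel G.Adj],
      n0 ≤ Fintype.card V → c * Fintype.card V ≤ G.maxDegree → HYu G p := by
  obtain ⟨n0, h⟩ := lab_all (min c 1) p hp (lt_min hc one_pos) (min_le_right _ _)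
  refine ⟨n0, fun V _ G _ hn hcΔ => hyu_of_lab G p hp ?_⟩
  refine h V G G.maxDegree hn (dg_le_max G) ?_ ?_
  · refine le_trans ?_ hcΔ
    exact mul_le_mul_of_nonneg_right (min_le_left _ _) (Nat.cast_nonneg _)
  · rcases isEmpty_or_nonempty V with hV | hV
    · simp [SimpleGraph.maxDegree]
    · exact G.maxDegree_lt_card_verts.le

end Pool.Agent.H33.TDP
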